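import Mathlib
import Pool.Agent.W275.UB.Den

/-!
# Project UB, part EXU: an ultrafilter without sets of density zero
-/

set_option autoImplicit false

namespace Pool.Agent.W125.UB.Exu

open Filter Topology Set
open Pool.Agent.W275.UB

variable {ι : Type} [Fintype ι]

theorem fin_box (S : Set (ι → ℤ)) (H : ℕ) : {v | v ∈ S ∧ ∀ i, |v i| ≤ (H : ℤ)}.Finite := by
  refine (Set.Finite.pi (fun _ : ι => Set.finite_Icc (-(H : ℤ)) H)).subset ?_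
  rintro v ⟨-, hv⟩ i -
  exact Set.mem_Icc.mpr (abs_le.mp (hv i))

theorem ud_mono {ε : ℝ} {S T : Set (ι → ℤ)} (h : S ⊆ T) (hT : UD ε T) : UD ε S := by
  obtain ⟨H₀, hH⟩ := hT
  refine ⟨H₀, fun H hH' => le_trans ?_ (hH H hH')⟩
  have h1 : {v | v ∈ S ∧ ∀ i, |v i| ≤ (H : ℤ)} ⊆ {v | v ∈ T ∧ ∀ i, |v i| ≤ (H : ℤ)} :=
    fun v hv => ⟨h hv.1, hv.2⟩
  exact_mod_cast Set.ncard_le_ncard h1 (fin_box T H)

theorem ud_union {ε : ℝ} {S T : Set (ι → ℤ)} (hS : UD (ε / 2) S) (hT : UD (ε / 2) T) :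
    UD ε (S ∪ T) := by
  obtain ⟨H₁, h₁⟩ := hS
  obtain ⟨H₂, h₂⟩ := hT
  refine ⟨max H₁ H₂, fun H hH => ?_⟩
  have a1 := h₁ H (le_trans (le_max_left _ _) hH)
  have a2 := h₂ H (le_trans (le_max_right _ _) hH)
  have hsub : {v : ι → ℤ | v ∈ S ∪ T ∧ ∀ i, |v i| ≤ (H : ℤ)} ⊆
      {v | v ∈ S ∧ ∀ i, |v i| ≤ (H : ℤ)} ∪ {v | v ∈ T ∧ ∀ i, |v i| ≤ (H : ℤ)} := by
    rintro v ⟨hv | hv, hv'⟩
    · exact Or.inl ⟨hv, hv'⟩
    · exact Or.inr ⟨hv, hv'⟩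
  have a3 : ({v : ι → ℤ | v ∈ S ∪ T ∧ ∀ i, |v i| ≤ (H : ℤ)}).ncard ≤
      ({v | v ∈ S ∧ ∀ i, |v i| ≤ (H : ℤ)} : Set (ι → ℤ)).ncard +
        ({v | v ∈ T ∧ ∀ i, |v i| ≤ (H : ℤ)} : Set (ι → ℤ)).ncard :=
    (Set.ncard_le_ncard hsub ((fin_box S H).union (fin_box T H))).trans (Set.ncard_union_le _ _)
  have a4 : (({v : ι → ℤ | v ∈ S ∪ T ∧ ∀ i, |v i| ≤ (H : ℤ)}).ncard : ℝ) ≤
      (({v | v ∈ S ∧ ∀ i, |v i| ≤ (H : ℤ)} : Set (ι → ℤ)).ncard : ℝ) +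
        (({v | v ∈ T ∧ ∀ i, |v i| ≤ (H : ℤ)} : Set (ι → ℤ)).ncard : ℝ) := by
    exact_mod_cast a3
  linarith

theorem ud_empty {ε : ℝ} (hε : 0 < ε) : UD ε (∅ : Set (ι → ℤ)) := by
  refine ⟨0, fun H _ => ?_⟩
  have : {v : ι → ℤ | v ∈ (∅ : Set (ι → ℤ)) ∧ ∀ i, |v i| ≤ (H : ℤ)} = ∅ := by
    ext v; simp
  rw [this, Set.ncard_empty]
  push_cast
  positivity

/-- the complements of the sets of density zero -/
def F (ι : Type) [Fintype ι] : Filter (ι → ℤ) where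
  sets := {A | ∀ ε : ℝ, 0 < ε → UD ε Aᶜ}
  univ_sets := by
    intro ε hε
    rw [Set.compl_univ]
    exact ud_empty hε
  sets_of_superset := by
    intro A B hA hAB ε hε
    exact ud_mono (Set.compl_subset_compl.mpr hAB) (hA ε hε)
  inter_sets := by
    intro A B hA hB ε hε
    rw [Set.compl_inter]
    exact ud_union (hA _ (by positivity)) (hB _ (by positivity))

theorem main : S_exu := by
  intro ι _ S hS
  have hne : (F ι ⊓ 𝓟 S).NeBot := by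
    rw [Filter.inf_principal_neBot_iff]
    intro A hA
    by_contra h
    rw [Set.not_nonempty_iff_eq_empty] at h
    apply hS
    intro ε hε
    refine ud_mono ?_ (hA ε hε)
    intro v hv hvA
    have : v ∈ A ∩ S := ⟨hvA, hv⟩
    rw [h] at this
    exact this
  refine ⟨Ultrafilter.of (F ι ⊓ 𝓟 S), ?_, ?_⟩
  · intro T hT
    have h1 : Tᶜ ∈ F ι := by
      intro ε hε
      rw [compl_compl]
      exact hT ε hε
    exact Ultrafilter.of_le _ (Filter.mem_inf_of_left h1)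
  · exact Ultrafilter.of_le _ (Filter.mem_inf_of_right (Filter.mem_principal_self S))

end Pool.Agent.W125.UB.Exu
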