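import Mathlib
import Pool.Agent.W275.UB.Den

/-!
# Project UB, parts FIN and TENSOR
-/

set_option autoImplicit false

namespace Pool.Agent.W125.UB.FinT

open Pool.Agent.W275.UB

theorem fin_main : S_fin := by
  classical
  intro E Ω _ _ _ _ n C G hG x hx j
  let E' := algebraicClosure E Ω
  have : IsAlgClosed E' := (algebraicClosure.isAlgClosure E Ω).isAlgClosed
  set Z : Set (Fin n → E') := {z | ∀ g ∈ G, MvPolynomial.aeval z g = 0} with hZ
  have hZf : Z.Finite := by
    by_contra hinf
    obtain ⟨X, hX, hc⟩ := Set.Infinite.exists_subset_card_eq hinf (C + 1)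
    have hinj : Function.Injective (fun (z : Fin n → E') (i : Fin n) => algebraMap E' Ω (z i)) := by
      intro z z' h
      funext i
      exact (algebraMap E' Ω).injective (congrFun h i)
    have h1 := hG (X.image (fun z i => algebraMap E' Ω (z i))) (by
      intro y hy g hg
      rw [Finset.mem_image] at hy
      obtain ⟨z, hz, rfl⟩ := hy
      have h2 : MvPolynomial.aeval z g = 0 := hX hz g hg
      have h3 := MvPolynomial.aeval_algebraMap_apply (A := E') (B := Ω) z g
      rw [h2, map_zero] at h3
      exact h3)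
    rw [Finset.card_image_of_injective _ hinj, hc] at h1
    omega
  set f : MvPolynomial (Fin n) E' :=
    ∏ z ∈ hZf.toFinset, (MvPolynomial.X j - MvPolynomial.C (z j)) with hf
  set I : Ideal (MvPolynomial (Fin n) E') :=
    Ideal.span ((MvPolynomial.map (algebraMap E E')) '' G) with hI
  have hmem : f ∈ I.radical := by
    rw [← MvPolynomial.vanishingIdeal_zeroLocus_eq_radical (K := E') I]
    intro z hz
    rw [hI, MvPolynomial.zeroLocus_span] at hz
    have hzZ : z ∈ hZf.toFinset := by
      rw [Set.Finite.mem_toFinset]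
      intro g hg
      have h3 := hz _ ⟨g, hg, rfl⟩
      rwa [MvPolynomial.aeval_map_algebraMap] at h3
    rw [hf, map_prod]
    refine Finset.prod_eq_zero hzZ ?_
    simp
  obtain ⟨m, hm⟩ := hmem
  have h4 : MvPolynomial.aeval x (f ^ m) = 0 := by
    have h5 : I ≤ RingHom.ker (MvPolynomial.aeval x : MvPolynomial (Fin n) E' →ₐ[E'] Ω) := by
      rw [hI, Ideal.span_le]
      rintro _ ⟨g, hg, rfl⟩
      show MvPolynomial.aeval x (MvPolynomial.map (algebraMap E E') g) = 0
      rw [MvPolynomial.aeval_map_algebraMap]
      exact hx g hg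
    exact h5 hm
  rw [map_pow] at h4
  have h6 : MvPolynomial.aeval x f = 0 := eq_zero_of_pow_eq_zero h4
  rw [hf, map_prod, Finset.prod_eq_zero_iff] at h6
  obtain ⟨z, -, hz⟩ := h6
  simp only [map_sub, MvPolynomial.aeval_X, MvPolynomial.aeval_C] at hz
  rw [sub_eq_zero.mp hz]
  exact mem_algebraicClosure_iff.mp (z j).2

theorem tensor_main : S_tensor := by
  intro E L Q _ _ _ _ _ φ
  letI : Algebra E Q := φ.toAlgebra
  let B := TensorProduct E Q L
  have hfB : Module.Finite Q B := inferInstance
  have hnt : Nontrivial B := inferInstance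
  obtain ⟨m, hm⟩ := Ideal.exists_maximal B
  have hsurj : Function.Surjective (Ideal.Quotient.mkₐ Q m).toLinearMap :=
    Ideal.Quotient.mk_surjective
  refine ⟨B ⧸ m, Ideal.Quotient.field m, (inferInstance : Algebra Q (B ⧸ m)),
    (Ideal.Quotient.mk m).comp
      ((Algebra.TensorProduct.includeRight : L →ₐ[E] B) : L →+* B), ?_, ?_, ?_⟩
  · exact Module.Finite.of_surjective _ hsurj
  · rw [← Module.finrank_baseChange (R := Q) (S := E) (M' := L)]
    exact LinearMap.finrank_le_finrank_of_surjective hsurj
  · intro x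
    have h1 : (Algebra.TensorProduct.includeRight : L →ₐ[E] B) (algebraMap E L x) =
        algebraMap Q B (φ x) := by
      rw [AlgHom.commutes]
      rfl
    show Ideal.Quotient.mk m ((Algebra.TensorProduct.includeRight : L →ₐ[E] B)
      (algebraMap E L x)) = _
    rw [h1]
    rfl

end Pool.Agent.W125.UB.FinT
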